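import Mathlib

open Finset

namespace Pool.Agent.Results.MP_2a5e5c_nt.Fails

def bin (a : ℚ) (k : ℕ) : ℚ := (∏ i ∈ range k, (a - i)) / k.factorial

def Cg (p m : ℕ) (u v : ℚ) : Prop := (p : ℤ) ^ m ∣ (u - v).num

def S1 (p : ℕ) : ℚ := ∑ k ∈ range p, bin (-1 / 3) k * bin (-1 / 6) k / (-1024) ^ k
def S2 (p : ℕ) : ℚ := ∑ k ∈ range p, bin (-2 / 3) k * bin (-5 / 6) k / (-1024) ^ k
def c (p : ℕ) : ℚ := jacobiSym 41 p * (if p % 3 = 1 then 1 else 1025 / 1024)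
def T (p : ℕ) : ℚ := ∑ k ∈ range ((p - 5) / 6 + 1),
  (((p - 2) / 3).choose k : ℚ) * (((p - 5) / 6).choose k : ℚ) / (-1024) ^ k

theorem result : ¬ ∀ p : ℕ, p.Prime → 3 < p →
    (∀ x y : ℤ, 4 * (p : ℤ) = x ^ 2 + 123 * y ^ 2 →
      Cg p 2 (S1 p) (c p * S2 p) ∧ Cg p 2 (S1 p) (-jacobiSym x 3 * (x - p / x))) ∧
    (∀ x y : ℤ, 4 * (p : ℤ) = 41 * x ^ 2 + 3 * y ^ 2 →
      Cg p 2 (S1 p) (c p * S2 p) ∧ Cg p 2 (S1 p) (5 / 32 * jacobiSym x 3 * (41 * x - p / x)) ∧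
      Cg p 1 (x * jacobiSym x 3) (-5 / 32 * T p)) ∧
    (jacobiSym p 3 = 1 → jacobiSym p 41 = -1 → Cg p 1 (S1 p) (c p * S2 p) ∧ Cg p 1 (S1 p) 0) := by
  intro h
  have h1 := ((h 41 (by norm_num) (by norm_num)).2.1 2 0 (by norm_num)).2.1
  have hj : jacobiSym 2 3 = -1 := by norm_num
  rw [hj] at h1
  revert h1
  unfold Cg S1 bin
  decide +kernel

end Pool.Agent.Results.MP_2a5e5c_nt.Fails
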